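import Pool.Agent.H15.SM.BDI

/-! MP_2e6055, module BD, part LM: measure of the angles of a boundary set (helper37). -/

set_option autoImplicit false
open Pool.Agent.H75.Perc Metric Set Filter Topology Pool.Agent.H7.UC Pool.Agent.H74.Tri
open Pool.Agent.H93.SM MeasureTheory

namespace Pool.Agent.H15.SM

theorem lm_exp_lip (s t : ℝ) :
    ‖Complex.exp (s * Complex.I) - Complex.exp (t * Complex.I)‖ ≤ |s - t| := by
  have h1 : Complex.exp (s * Complex.I) - Complex.exp (t * Complex.I)
      = Complex.exp (t * Complex.I) * (Complex.exp (Complex.I * ((s - t : ℝ) : ℂ)) - 1) := by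
    rw [mul_sub, ← Complex.exp_add, mul_one]
    congr 2
    push_cast
    ring
  rw [h1, norm_mul, Complex.norm_exp_ofReal_mul_I, one_mul]
  exact Real.norm_exp_I_mul_ofReal_sub_one_le

theorem lm_angle {ξ : ℂ} (h : ‖ξ‖ = 1) :
    ∃ t : ℝ, t ∈ Icc 0 (2 * Real.pi) ∧ Complex.exp (t * Complex.I) = ξ := by
  have h1 : Complex.exp (ξ.arg * Complex.I) = ξ := by
    have := Complex.norm_mul_exp_arg_mul_I ξ
    rw [h] at this
    simpa using this
  have h2 := Complex.neg_pi_lt_arg ξ
  have h3 := Complex.arg_le_pi ξ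
  have hpi := Real.pi_pos
  by_cases h0 : 0 ≤ ξ.arg
  · exact ⟨ξ.arg, ⟨h0, by linarith⟩, h1⟩
  · refine ⟨ξ.arg + 2 * Real.pi, ⟨by linarith, by linarith⟩, ?_⟩
    push_cast
    rw [add_mul, Complex.exp_add, h1]
    rw [Complex.exp_two_pi_mul_I, mul_one]

theorem lm : LM := by
  intro D φ E p q hφ hE _ hsub hp hq hpE hqE
  by_cases hpq : p = q
  · subst hpq
    simp
  have hne : ‖q - p‖ ≠ 0 := norm_ne_zero_iff.2 (sub_ne_zero.2 (Ne.symm hpq))
  set u : ℂ := (q - p) / (‖q - p‖ : ℂ) with hu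
  have hun : ‖u‖ = 1 := by
    rw [hu, norm_div, Complex.norm_real, norm_norm, div_self hne]
  set L : ℂ → ℝ := fun ξ => ((starRingEnd ℂ) u * ξ).re with hL
  have hLip : ∀ ξ η : ℂ, |L ξ - L η| ≤ ‖ξ - η‖ := by
    intro ξ η
    have h1 : L ξ - L η = ((starRingEnd ℂ) u * (ξ - η)).re := by
      rw [hL]
      simp only
      rw [mul_sub, Complex.sub_re]
    rw [h1]
    refine (Complex.abs_re_le_norm _).trans ?_
    rw [norm_mul, RCLike.norm_conj, hun, one_mul]
  have hLc : Continuous L := by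
    rw [hL]
    fun_prop
  have hLpq : L q - L p = ‖p - q‖ := by
    have h1 : L q - L p = ((starRingEnd ℂ) u * (q - p)).re := by
      rw [hL]
      simp only
      rw [mul_sub, Complex.sub_re]
    have h2 : (starRingEnd ℂ) u * (q - p) = (‖q - p‖ : ℂ) := by
      have h3 : q - p = (‖q - p‖ : ℂ) * u := by
        rw [hu]
        field_simp [Complex.ofReal_ne_zero.2 hne]
      have h4 : (starRingEnd ℂ) u * u = 1 := by
        rw [mul_comm, Complex.mul_conj, Complex.normSq_eq_norm_sq, hun]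
        simp
      calc (starRingEnd ℂ) u * (q - p) = (starRingEnd ℂ) u * ((‖q - p‖ : ℂ) * u) := by
            rw [← h3]
        _ = (‖q - p‖ : ℂ) * ((starRingEnd ℂ) u * u) := by ring
        _ = _ := by rw [h4, mul_one]
    rw [h1, h2, Complex.ofReal_re, norm_sub_rev]
  -- the preimage is connected
  set f : sphere (0 : ℂ) 1 → ℂ := fun ξ => φ ξ.1 with hf
  have hfc : Continuous f := by
    have h1 : ContinuousOn φ (sphere (0 : ℂ) 1) := hφ.cont.mono sphere_subset_closedBall
    exact continuousOn_iff_continuous_domRestrict.1 h1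
  have hfi : Function.Injective f := by
    intro a b hab
    exact Subtype.ext (hφ.inj (sphere_subset_closedBall a.2) (sphere_subset_closedBall b.2) hab)
  have hfr : E ⊆ range f := by
    intro e he
    obtain ⟨ξ, hξ, rfl⟩ := hsub he
    exact ⟨⟨ξ, hξ⟩, rfl⟩
  have hpre : IsPreconnected (f ⁻¹' E) := hE.preimage_of_isClosedMap hfi hfc.isClosedMap hfr
  have hval : Icc (L p) (L q) ⊆ (fun ξ : sphere (0 : ℂ) 1 => L ξ.1) '' (f ⁻¹' E) :=
    hpre.intermediate_value (a := ⟨p, mem_sphere_zero_iff_norm.2 hp⟩)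
      (b := ⟨q, mem_sphere_zero_iff_norm.2 hq⟩) hpE hqE
      (hLc.comp continuous_subtype_val).continuousOn
  -- the angles
  set T : Set ℝ := {t : ℝ | t ∈ Icc 0 (2 * Real.pi) ∧ φ (Complex.exp (t * Complex.I)) ∈ E} with hT
  set g : ℝ → ℝ := fun t => L (Complex.exp (t * Complex.I)) with hg
  have hgl : LipschitzWith 1 g := by
    refine LipschitzWith.of_dist_le_mul fun s t => ?_
    rw [NNReal.coe_one, one_mul, Real.dist_eq, Real.dist_eq]
    exact (hLip _ _).trans (lm_exp_lip s t)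
  have himg : Icc (L p) (L q) ⊆ g '' T := by
    intro v hv
    obtain ⟨ξ, hξ, hξv⟩ := hval hv
    obtain ⟨t, ht, hte⟩ := lm_angle (mem_sphere_zero_iff_norm.1 ξ.2)
    refine ⟨t, ⟨ht, ?_⟩, ?_⟩
    · rw [hte]
      exact hξ
    · rw [hg]
      simp only
      rw [hte]
      exact hξv
  have h1 : (volume : Measure ℝ) (g '' T) ≤ volume T := by
    have h2 := (hgl.lipschitzOnWith (s := T)).hausdorffMeasure_image_le (d := 1) zero_le_one
    rw [hausdorffMeasure_real] at h2
    simpa using h2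
  calc ENNReal.ofReal ‖p - q‖ = volume (Icc (L p) (L q)) := by rw [Real.volume_Icc, hLpq]
    _ ≤ volume (g '' T) := measure_mono himg
    _ ≤ volume T := h1

end Pool.Agent.H15.SM
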